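import Mathlib

/-!
# A surjective polynomial map with the five characteristic-polynomial-type properties

The map `(x, y, z) ↦ (x + z, x y, - x² z - x y²)` of `ℝ³` is surjective and satisfies
conditions (a)-(e) of the problem.
-/

open MvPolynomial Finset

namespace Pool.Agent.Results.MP_07d99b_al.SurjectiveMap

/-- Conditions (a)-(e) on a tuple `p` of `n` real polynomials in `n` indeterminates. -/
structure Conditions (n : ℕ) (p : Fin n → MvPolynomial (Fin n) ℝ) : Prop where
  /-- (a) every `p i` vanishes at the origin -/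
  a : ∀ i, eval (0 : Fin n → ℝ) (p i) = 0
  /-- (b) the `i`-th polynomial (counted from one) has degree at most `i` -/
  b : ∀ i : Fin n, (p i).totalDegree ≤ (i : ℕ) + 1
  /-- (c) the fibre over the origin is infinite -/
  c : {x : Fin n → ℝ | ∀ i, eval x (p i) = 0}.Infinite
  /-- (d) any `k < n` of the polynomials, `k ≥ 1`, together involve at least `k + 1` variables -/
  d : ∀ S : Finset (Fin n), S.Nonempty → S.card < n →
    S.card + 1 ≤ (S.biUnion fun i => (p i).vars).card
  /-- (e) every nonzero coefficient is `1` or `-1` -/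
  e : ∀ i m, (p i).coeff m ≠ 0 → (p i).coeff m = 1 ∨ (p i).coeff m = -1

/-- the three polynomials -/
noncomputable def P : Fin 3 → MvPolynomial (Fin 3) ℝ :=
  ![monomial (Finsupp.single 0 1) 1 + monomial (Finsupp.single 2 1) 1,
    monomial (Finsupp.single 0 1 + Finsupp.single 1 1) 1,
    monomial (Finsupp.single 0 2 + Finsupp.single 2 1) (-1) +
      monomial (Finsupp.single 0 1 + Finsupp.single 1 2) (-1)]

lemma eval0 (x : Fin 3 → ℝ) : eval x (P 0) = x 0 + x 2 := by
  simp [P, eval_monomial]

lemma eval1 (x : Fin 3 → ℝ) : eval x (P 1) = x 0 * x 1 := by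
  simp [P, eval_monomial, Finsupp.prod_fintype, Fin.prod_univ_three, Finsupp.single_apply]

lemma eval2 (x : Fin 3 → ℝ) : eval x (P 2) = -(x 0 ^ 2 * x 2) - x 0 * x 1 ^ 2 := by
  simp [P, eval_monomial, Finsupp.prod_fintype, Fin.prod_univ_three, Finsupp.single_apply]
  ring

lemma ne1 : (Finsupp.single 0 1 : Fin 3 →₀ ℕ) ≠ Finsupp.single 2 1 := by
  intro h
  have := DFunLike.congr_fun h 0
  simp at this

lemma ne2 : (Finsupp.single 0 2 + Finsupp.single 2 1 : Fin 3 →₀ ℕ) ≠
    Finsupp.single 0 1 + Finsupp.single 1 2 := by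
  intro h
  have := DFunLike.congr_fun h 0
  simp at this

lemma vars0 : {0, 2} ⊆ (P 0).vars := by
  intro j hj
  rw [mem_vars]
  simp only [mem_insert, mem_singleton] at hj
  rcases hj with rfl | rfl
  · refine ⟨Finsupp.single 0 1, ?_, by simp⟩
    rw [mem_support_iff]
    simp [P, coeff_monomial, ne1, ne1.symm]
  · refine ⟨Finsupp.single 2 1, ?_, by simp⟩
    rw [mem_support_iff]
    simp [P, coeff_monomial, ne1, ne1.symm]

lemma vars1 : {0, 1} ⊆ (P 1).vars := by
  intro j hj
  rw [mem_vars]
  refine ⟨Finsupp.single 0 1 + Finsupp.single 1 1, ?_, ?_⟩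
  · rw [mem_support_iff]
    simp [P, coeff_monomial]
  · simp only [mem_insert, mem_singleton] at hj
    rcases hj with rfl | rfl <;> simp

lemma vars2 : {0, 1, 2} ⊆ (P 2).vars := by
  intro j hj
  rw [mem_vars]
  simp only [mem_insert, mem_singleton] at hj
  rcases hj with rfl | rfl | rfl
  · refine ⟨Finsupp.single 0 1 + Finsupp.single 1 2, ?_, by simp⟩
    rw [mem_support_iff]
    simp [P, coeff_monomial, ne2, ne2.symm]
  · refine ⟨Finsupp.single 0 1 + Finsupp.single 1 2, ?_, by simp⟩
    rw [mem_support_iff]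
    simp [P, coeff_monomial, ne2, ne2.symm]
  · refine ⟨Finsupp.single 0 2 + Finsupp.single 2 1, ?_, by simp⟩
    rw [mem_support_iff]
    simp [P, coeff_monomial, ne2, ne2.symm]

lemma cond : Conditions 3 P where
  a := by
    intro i
    fin_cases i
    · exact (eval0 0).trans (by simp)
    · exact (eval1 0).trans (by simp)
    · exact (eval2 0).trans (by simp)
  b := by
    intro i
    fin_cases i
    · refine (totalDegree_add _ _).trans (max_le ?_ ?_)
      · exact (totalDegree_monomial_le _ _).trans (by simp)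
      · exact (totalDegree_monomial_le _ _).trans (by simp)
    · refine (totalDegree_monomial_le _ _).trans ?_
      rw [Finsupp.sum_fintype _ _ (by simp)]
      simp [Fin.sum_univ_three, Finsupp.single_apply]
    · refine (totalDegree_add _ _).trans (max_le ?_ ?_)
      · refine (totalDegree_monomial_le _ _).trans ?_
        rw [Finsupp.sum_fintype _ _ (by simp)]
        simp [Fin.sum_univ_three, Finsupp.single_apply]
      · refine (totalDegree_monomial_le _ _).trans ?_
        rw [Finsupp.sum_fintype _ _ (by simp)]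
        simp [Fin.sum_univ_three, Finsupp.single_apply]
  c := by
    refine Set.infinite_of_injective_forall_mem (f := fun t : ℝ => (![0, t, 0] : Fin 3 → ℝ)) ?_ ?_
    · intro s t h
      have := congrFun h 1
      simpa using this
    · intro t i
      fin_cases i
      · exact (eval0 _).trans (by simp)
      · exact (eval1 _).trans (by simp)
      · exact (eval2 _).trans (by simp)
  d := by
    intro S hS hc
    have h0 : ∀ i ∈ S, (P i).vars ⊆ S.biUnion fun i => (P i).vars := fun i hi =>
      subset_biUnion_of_mem (fun i => (P i).vars) hi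
    have h2 : ∀ i : Fin 3, 2 ≤ (P i).vars.card := by
      intro i
      fin_cases i
      · exact le_trans (by decide) (card_le_card vars0)
      · exact le_trans (by decide) (card_le_card vars1)
      · exact le_trans (by decide) (card_le_card vars2)
    have hcard : S.card = 1 ∨ S.card = 2 := by
      have := hS.card_pos
      omega
    rcases hcard with h | h
    · obtain ⟨i, hi⟩ := hS
      have := card_le_card (h0 i hi)
      have := h2 i
      omega
    · have key : ({0, 1, 2} : Finset (Fin 3)) ⊆ S.biUnion fun i => (P i).vars := by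
        by_cases h2m : (2 : Fin 3) ∈ S
        · exact vars2.trans (h0 2 h2m)
        · have hS' : S ⊆ {0, 1} := by
            intro i hi
            fin_cases i
            · simp
            · simp
            · exact absurd hi h2m
          have hS'' : S = {0, 1} := eq_of_subset_of_card_le hS' (by rw [h]; decide)
          have m0 : (0 : Fin 3) ∈ S := by rw [hS'']; simp
          have m1 : (1 : Fin 3) ∈ S := by rw [hS'']; simp
          intro j hj
          fin_cases j
          · exact h0 0 m0 (vars0 (by simp))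
          · exact h0 1 m1 (vars1 (by simp))
          · exact h0 0 m0 (vars0 (by simp))
      have := card_le_card key
      have h3 : ({0, 1, 2} : Finset (Fin 3)).card = 3 := by decide
      omega
  e := by
    intro i m
    fin_cases i
    · show coeff m (monomial (Finsupp.single 0 1) (1 : ℝ) + monomial (Finsupp.single 2 1) 1) ≠ 0 →
        coeff m (monomial (Finsupp.single 0 1) (1 : ℝ) + monomial (Finsupp.single 2 1) 1) = 1 ∨
        coeff m (monomial (Finsupp.single 0 1) (1 : ℝ) + monomial (Finsupp.single 2 1) 1) = -1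
      rw [coeff_add, coeff_monomial, coeff_monomial]
      by_cases h1 : Finsupp.single (0 : Fin 3) 1 = m
      · subst h1
        simp [ne1.symm]
      · by_cases h2 : Finsupp.single (2 : Fin 3) 1 = m
        · subst h2
          simp [ne1]
        · simp [h1, h2]
    · show coeff m (monomial (Finsupp.single 0 1 + Finsupp.single 1 1) (1 : ℝ)) ≠ 0 →
        coeff m (monomial (Finsupp.single 0 1 + Finsupp.single 1 1) (1 : ℝ)) = 1 ∨
        coeff m (monomial (Finsupp.single 0 1 + Finsupp.single 1 1) (1 : ℝ)) = -1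
      rw [coeff_monomial]
      split_ifs <;> simp
    · show coeff m (monomial (Finsupp.single 0 2 + Finsupp.single 2 1) (-1 : ℝ) +
          monomial (Finsupp.single 0 1 + Finsupp.single 1 2) (-1)) ≠ 0 →
        coeff m (monomial (Finsupp.single 0 2 + Finsupp.single 2 1) (-1 : ℝ) +
          monomial (Finsupp.single 0 1 + Finsupp.single 1 2) (-1)) = 1 ∨
        coeff m (monomial (Finsupp.single 0 2 + Finsupp.single 2 1) (-1 : ℝ) +
          monomial (Finsupp.single 0 1 + Finsupp.single 1 2) (-1)) = -1
      rw [coeff_add, coeff_monomial, coeff_monomial]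
      by_cases h1 : Finsupp.single (0 : Fin 3) 2 + Finsupp.single 2 1 = m
      · subst h1
        simp [ne2.symm]
      · by_cases h2 : Finsupp.single (0 : Fin 3) 1 + Finsupp.single 1 2 = m
        · subst h2
          simp [ne2]
        · simp [h1, h2]

/-- `x ↦ x³ - s x² - a² / x` takes every value on `(0, ∞)` when `a ≠ 0`; cleared form. -/
lemma root_pos (s a b : ℝ) (ha : a ≠ 0) : ∃ x : ℝ, 0 < x ∧ x ^ 4 - s * x ^ 3 - a ^ 2 = b * x := by
  have hcont : Continuous fun x : ℝ => x ^ 4 - s * x ^ 3 - a ^ 2 - b * x := by fun_prop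
  have ha2 : 0 < a ^ 2 := by positivity
  obtain ⟨T, hT⟩ : ∃ T : ℝ, T = 1 + |s| + |b| + a ^ 2 := ⟨_, rfl⟩
  have hs := abs_nonneg s
  have hb := abs_nonneg b
  have hT1 : 1 ≤ T := by rw [hT]; linarith
  have h0 : (0 : ℝ) ^ 4 - s * 0 ^ 3 - a ^ 2 - b * 0 ≤ 0 := by nlinarith
  have hTT : 0 ≤ T ^ 4 - s * T ^ 3 - a ^ 2 - b * T := by
    have e1 : s * T ^ 3 ≤ |s| * T ^ 3 := by
      apply mul_le_mul_of_nonneg_right (le_abs_self s) (by positivity)
    have e2 : b * T ≤ |b| * T ^ 3 := by
      have : b * T ≤ |b| * T := mul_le_mul_of_nonneg_right (le_abs_self b) (by linarith)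
      have h3 : T ≤ T ^ 3 := by nlinarith [mul_nonneg (by linarith : (0:ℝ) ≤ T) (by linarith : (0:ℝ) ≤ T - 1)]
      nlinarith
    have e3 : a ^ 2 ≤ a ^ 2 * T ^ 3 := by
      have h3 : 1 ≤ T ^ 3 := one_le_pow₀ hT1
      nlinarith
    have e4 : T ^ 4 = T ^ 3 + |s| * T ^ 3 + |b| * T ^ 3 + a ^ 2 * T ^ 3 := by
      rw [show T ^ 4 = T * T ^ 3 by ring]
      nth_rewrite 1 [hT]
      ring
    have e5 : 0 ≤ T ^ 3 := by positivity
    linarith
  obtain ⟨x, hx, hx0⟩ := intermediate_value_Icc (show (0 : ℝ) ≤ T by linarith) hcont.continuousOn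
    ⟨h0, hTT⟩
  refine ⟨x, ?_, by simp only at hx0; linarith⟩
  rcases lt_or_eq_of_le hx.1 with h | h
  · exact h
  · exfalso
    rw [← h] at hx0
    simp only at hx0
    nlinarith

/-- a real cubic `x³ - s x²` takes every value -/
lemma root_cubic (s b : ℝ) : ∃ x : ℝ, x ^ 3 - s * x ^ 2 = b := by
  have hcont : Continuous fun x : ℝ => x ^ 3 - s * x ^ 2 := by fun_prop
  obtain ⟨T, hT⟩ : ∃ T : ℝ, T = 1 + |s| + |b| := ⟨_, rfl⟩
  have hs := abs_nonneg s
  have hb := abs_nonneg b
  have hT1 : 1 ≤ T := by rw [hT]; linarith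
  have h1 := le_abs_self s
  have h2 := neg_abs_le s
  have h3 := le_abs_self b
  have h4 := neg_abs_le b
  have hT2 : 1 ≤ T ^ 2 := one_le_pow₀ hT1
  have e4 : T ^ 3 = T ^ 2 + |s| * T ^ 2 + |b| * T ^ 2 := by
    rw [show T ^ 3 = T * T ^ 2 by ring]
    nth_rewrite 1 [hT]
    ring
  have hlo : (-T) ^ 3 - s * (-T) ^ 2 ≤ b := by
    have : (-T) ^ 3 - s * (-T) ^ 2 = -T ^ 3 - s * T ^ 2 := by ring
    rw [this, e4]
    nlinarith
  have hhi : b ≤ T ^ 3 - s * T ^ 2 := by
    rw [e4]
    nlinarith
  obtain ⟨x, -, hx⟩ := intermediate_value_Icc (show -T ≤ T by linarith) hcont.continuousOn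
    ⟨hlo, hhi⟩
  exact ⟨x, hx⟩

lemma surj : Function.Surjective fun (x : Fin 3 → ℝ) (i : Fin 3) => eval x (P i) := by
  intro t
  by_cases ha : t 1 = 0
  · obtain ⟨x, hx⟩ := root_cubic (t 0) (t 2)
    refine ⟨![x, 0, t 0 - x], ?_⟩
    funext i
    fin_cases i
    · exact (eval0 _).trans (by simp)
    · exact (eval1 _).trans (by simp [ha])
    · refine (eval2 _).trans ?_
      simp
      linarith
  · obtain ⟨x, hx0, hx⟩ := root_pos (t 0) (t 1) (t 2) ha
    refine ⟨![x, t 1 / x, t 0 - x], ?_⟩
    funext i
    fin_cases i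
    · exact (eval0 _).trans (by simp)
    · refine (eval1 _).trans ?_
      simp
      field_simp
    · refine (eval2 _).trans ?_
      simp
      field_simp
      linarith

/-- There are `n ≥ 1` and a surjective polynomial map of `ℝⁿ` satisfying (a)-(e). -/
theorem result : ∃ n : ℕ, 1 ≤ n ∧ ∃ p : Fin n → MvPolynomial (Fin n) ℝ,
    Conditions n p ∧ Function.Surjective fun (x : Fin n → ℝ) (i : Fin n) => eval x (p i) :=
  ⟨3, by norm_num, P, cond, surj⟩

end Pool.Agent.Results.MP_07d99b_al.SurjectiveMap
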